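import Mathlib

/-!
# Uniform K-stability of products: data and definitions
-/

namespace Pool.Agent.N522.YU

open Filter Topology

/-- Polarized manifolds, test configurations and their numerical invariants. -/
structure Theory where
  /-- polarized manifolds `(X, L)` -/
  Pol : Type
  /-- test configurations -/
  TC : Pol → Type
  /-- `c_1(L)` contains a cscK metric -/
  Csck : Pol → Prop
  /-- `Aut(X, L)` is finite -/
  FinAut : Pol → Prop
  /-- dimension -/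
  dim : Pol → ℕ
  /-- `L^n` -/
  vol : Pol → ℝ
  /-- `K_X · L^{n-1}` -/
  can : Pol → ℝ
  /-- `dim H^0(X, kL)` -/
  h0 : Pol → ℕ → ℕ
  /-- `𝓛̄^{n+1}` on the compactification -/
  top : ∀ {X : Pol}, TC X → ℝ
  /-- `K_{𝓧̄/ℙ¹} · 𝓛̄^n` on the compactification -/
  rel : ∀ {X : Pol}, TC X → ℝ
  /-- a positive integer `e` such that `e𝓛` is a line bundle -/
  e : ∀ {X : Pol}, TC X → ℕ
  /-- the weights of `ℂ^*` on `H^0(𝓧_0, j e 𝓛_0)` -/
  wt : ∀ {X : Pol}, TC X → ℕ → Multiset ℝ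
  /-- `(X × Y, L ⊠ M)` -/
  prod : Pol → Pol → Pol
  /-- `𝓧 × Y` -/
  left : ∀ (X Y : Pol), TC X → TC (prod X Y)

/-- mean of a family of real numbers -/
noncomputable def mean (s : Multiset ℝ) : ℝ := s.sum / s.card

/-- mean absolute deviation from the mean: `(1/N) ∑ |λ_i - λ̄|` -/
noncomputable def dev (s : Multiset ℝ) : ℝ := (s.map fun x => |x - mean s|).sum / s.card

variable {T : Theory}

/-- `ν = ‖ρ‖_{L^1}`: the limit of `(1/(k N_k)) ∑ |λ_{k,i} - λ̄_k|` over `k = j e` -/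
def IsNorm {X : T.Pol} (ρ : T.TC X) (ν : ℝ) : Prop :=
  Tendsto (fun j : ℕ => dev (T.wt ρ j) / ((j * T.e ρ : ℕ) : ℝ)) atTop (𝓝 ν)

/-- the Donaldson–Futaki invariant -/
noncomputable def DF {X : T.Pol} (ρ : T.TC X) : ℝ :=
  1 / (T.vol X * (T.dim X + 1)) *
    (-(T.dim X * T.can X) / T.vol X * T.top ρ + (T.dim X + 1) * T.rel ρ)

/-- uniform K-stability in the `L^1`-sense -/
def UniformlyKStable (T : Theory) (X : T.Pol) : Prop :=
  ∃ ε : ℝ, 0 < ε ∧ ∀ (ρ : T.TC X) (ν : ℝ), IsNorm ρ ν → ε * ν ≤ DF ρ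

/-- Q1 for a polarized manifold -/
def Q1 (T : Theory) (X : T.Pol) : Prop := T.FinAut X → UniformlyKStable T X → T.Csck X

/-- Intersection numbers of a product: the expansions of `(L + M)^{n+m}`,
`(K_X + K_Y)(L + M)^{n+m-1}`, `(𝓛̄ + M)^{n+m+1}` and `(K_{𝓧̄/ℙ¹} + K_Y)(𝓛̄ + M)^{n+m}`. -/
structure ProductNumbers (T : Theory) (X Y : T.Pol) : Prop where
  dim : T.dim (T.prod X Y) = T.dim X + T.dim Y
  vol : T.vol (T.prod X Y) = ((T.dim X + T.dim Y).choose (T.dim X) : ℝ) * T.vol X * T.vol Y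
  can : T.can (T.prod X Y) =
    ((T.dim X + T.dim Y - 1).choose (T.dim X - 1) : ℝ) * T.can X * T.vol Y +
    ((T.dim X + T.dim Y - 1).choose (T.dim X) : ℝ) * T.vol X * T.can Y
  top : ∀ ρ : T.TC X, T.top (T.left X Y ρ) =
    ((T.dim X + T.dim Y + 1).choose (T.dim X + 1) : ℝ) * T.top ρ * T.vol Y
  rel : ∀ ρ : T.TC X, T.rel (T.left X Y ρ) =
    ((T.dim X + T.dim Y).choose (T.dim X) : ℝ) * T.rel ρ * T.vol Y +
    ((T.dim X + T.dim Y).choose (T.dim X + 1) : ℝ) * T.top ρ * T.can Y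

/-- Weights of a product test configuration. -/
structure ProductWeights (T : Theory) (X Y : T.Pol) : Prop where
  e : ∀ ρ : T.TC X, T.e (T.left X Y ρ) = T.e ρ
  wt : ∀ (ρ : T.TC X) (j : ℕ), T.wt (T.left X Y ρ) j = T.h0 Y (j * T.e ρ) • T.wt ρ j

/-- Known facts.

* `num`, `weights`: invariants of products; `swap`: the same with the factors exchanged;
* `vol_pos`, `dim_pos`, `e_pos`, `h0_pos`: positivity, `H^0(Y, kM) ≠ 0` for large `k`;
* `csck`: the product of cscK metrics; `aut`: `Aut(X, L)` and `Aut(Y, M)` embed into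
  `Aut(X × Y, L ⊠ M)`. -/
structure Facts (T : Theory) : Prop where
  vol_pos : ∀ X, 0 < T.vol X
  dim_pos : ∀ X, 0 < T.dim X
  e_pos : ∀ (X : T.Pol) (ρ : T.TC X), 0 < T.e ρ
  h0_pos : ∀ Y : T.Pol, ∃ k₀ : ℕ, ∀ k, k₀ ≤ k → 0 < T.h0 Y k
  num : ∀ X Y, ProductNumbers T X Y
  weights : ∀ X Y, ProductWeights T X Y
  swap : ∀ X Y, ∃ s : T.TC (T.prod Y X) → T.TC (T.prod X Y), ∀ ρ, DF (s ρ) = DF ρ ∧
    ∀ ν, IsNorm ρ ν → IsNorm (s ρ) ν
  csck : ∀ X Y, T.Csck X → T.Csck Y → T.Csck (T.prod X Y)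
  aut : ∀ X Y, T.FinAut (T.prod X Y) → T.FinAut X ∧ T.FinAut Y

/-- The smallest class of polarized manifolds containing those in `S` and closed under products. -/
inductive Gen (T : Theory) (S : T.Pol → Prop) : T.Pol → Prop
  | base (X : T.Pol) : S X → Gen T S X
  | prod (X Y : T.Pol) : Gen T S X → Gen T S Y → Gen T S (T.prod X Y)

end Pool.Agent.N522.YU
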