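import Pool.Agent.N522.YU.Defs

/-!
# Uniform K-stability of products and of their factors
-/

namespace Pool.Agent.N522.YU

open Filter Topology

theorem mean_nsmul (s : Multiset ℝ) (m : ℕ) (hm : 0 < m) : mean (m • s) = mean s := by
  unfold mean
  rw [Multiset.sum_nsmul, Multiset.card_nsmul, nsmul_eq_mul]
  push_cast
  rw [mul_div_mul_left]
  exact_mod_cast hm.ne'

theorem dev_nsmul (s : Multiset ℝ) (m : ℕ) (hm : 0 < m) : dev (m • s) = dev s := by
  unfold dev
  rw [mean_nsmul s m hm, Multiset.map_nsmul, Multiset.sum_nsmul, Multiset.card_nsmul, nsmul_eq_mul]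
  push_cast
  rw [mul_div_mul_left]
  exact_mod_cast hm.ne'

variable {T : Theory}

theorem norm_left (hT : Facts T) (X Y : T.Pol) (ρ : T.TC X) (ν : ℝ) (h : IsNorm ρ ν) :
    IsNorm (T.left X Y ρ) ν := by
  unfold IsNorm at *
  refine h.congr' ?_
  obtain ⟨k₀, hk⟩ := hT.h0_pos Y
  filter_upwards [eventually_ge_atTop k₀] with j hj
  have hw := hT.weights X Y
  have h1 : 0 < T.h0 Y (j * T.e ρ) := by
    apply hk
    have := hT.e_pos X ρ
    nlinarith
  rw [hw.wt, hw.e, dev_nsmul _ _ h1]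

/-- the identities between binomial coefficients -/
theorem choose1 (n m : ℕ) :
    (((n + m + 1).choose (n + 1) : ℕ) : ℝ) * (n + 1) = (n + m + 1) * ((n + m).choose n : ℕ) := by
  have := Nat.add_one_mul_choose_eq (n + m) n
  exact_mod_cast this.symm

theorem choose2 (n m : ℕ) :
    (((n + m).choose (n + 1) : ℕ) : ℝ) * (n + 1) = m * ((n + m).choose n : ℕ) := by
  have := Nat.choose_succ_right_eq (n + m) n
  have h : n + m - n = m := by omega
  rw [h] at this
  have h2 : (n + m).choose (n + 1) * (n + 1) = m * (n + m).choose n := by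
    rw [this, mul_comm]
  exact_mod_cast h2

theorem choose3 (n m : ℕ) (hn : 0 < n) :
    (n + m : ℝ) * (((n + m - 1).choose (n - 1) : ℕ) : ℝ) = n * ((n + m).choose n : ℕ) := by
  obtain ⟨a, rfl⟩ : ∃ a, n = a + 1 := ⟨n - 1, by omega⟩
  have h1 : a + 1 + m - 1 = a + m := by omega
  have h2 : a + 1 - 1 = a := by omega
  rw [h1, h2]
  have := Nat.add_one_mul_choose_eq (a + m) a
  have h3 : (a + 1 + m) = (a + m + 1) := by omega
  rw [h3]
  have h4 : ((a + m + 1 : ℕ) : ℝ) * ((a + m).choose a : ℕ) =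
      ((a + m + 1).choose (a + 1) : ℕ) * ((a + 1 : ℕ) : ℝ) := by exact_mod_cast this
  push_cast at h4 ⊢
  linarith

theorem choose4 (n m : ℕ) (hm : 0 < m) :
    (n + m : ℝ) * (((n + m - 1).choose n : ℕ) : ℝ) = m * ((n + m).choose n : ℕ) := by
  have h := choose3 m n hm
  have h1 : m + n - 1 = n + m - 1 := by omega
  have h2 : (n + m - 1).choose (m - 1) = (n + m - 1).choose n := by
    rw [← Nat.choose_symm (by omega : m - 1 ≤ n + m - 1)]
    congr 1
    omega
  have h3 : (m + n).choose m = (n + m).choose n := by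
    rw [add_comm m n, Nat.choose_symm_add]
  rw [h1, h2, h3] at h
  linarith

/-- The Donaldson–Futaki invariant of `𝓧 × Y` is that of `𝓧`. -/
theorem df_left (hT : Facts T) (X Y : T.Pol) (ρ : T.TC X) : DF (T.left X Y ρ) = DF ρ := by
  have hN := hT.num X Y
  have hVX := (hT.vol_pos X).ne'
  have hVY := (hT.vol_pos Y).ne'
  have hn := hT.dim_pos X
  have hm := hT.dim_pos Y
  unfold DF
  rw [hN.dim, hN.vol, hN.can, hN.top, hN.rel]
  generalize hn' : T.dim X = n at *
  generalize hm' : T.dim Y = m at *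
  have e1 := choose1 n m
  have e2 := choose2 n m
  have e3 := choose3 n m hn
  have e4 := choose4 n m hm
  have hC : (((n + m).choose n : ℕ) : ℝ) ≠ 0 := by
    exact_mod_cast (Nat.choose_pos (by omega)).ne'
  have hn1 : ((n : ℝ) + 1) ≠ 0 := by positivity
  have hnm1 : ((n : ℝ) + m + 1) ≠ 0 := by positivity
  have hnm : ((n : ℝ) + m) ≠ 0 := by
    have : (0 : ℝ) < n := by exact_mod_cast hn
    positivity
  set C := (((n + m).choose n : ℕ) : ℝ) with hCdef
  have f1 : (((n + m + 1).choose (n + 1) : ℕ) : ℝ) = (n + m + 1) * C / (n + 1) := by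
    field_simp; linarith
  have f2 : (((n + m).choose (n + 1) : ℕ) : ℝ) = m * C / (n + 1) := by
    field_simp; linarith
  have f3 : (((n + m - 1).choose (n - 1) : ℕ) : ℝ) = n * C / (n + m) := by
    field_simp; linarith
  have f4 : (((n + m - 1).choose n : ℕ) : ℝ) = m * C / (n + m) := by
    field_simp; linarith
  rw [f1, f2, f3, f4]
  push_cast
  field_simp
  ring

theorem stable_left (hT : Facts T) (X Y : T.Pol) (h : UniformlyKStable T (T.prod X Y)) :
    UniformlyKStable T X := by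
  obtain ⟨ε, hε, h⟩ := h
  refine ⟨ε, hε, fun ρ ν hν => ?_⟩
  have := h (T.left X Y ρ) ν (norm_left hT X Y ρ ν hν)
  rwa [df_left hT] at this

theorem stable_swap (hT : Facts T) (X Y : T.Pol) (h : UniformlyKStable T (T.prod X Y)) :
    UniformlyKStable T (T.prod Y X) := by
  obtain ⟨ε, hε, h⟩ := h
  obtain ⟨s, hs⟩ := hT.swap X Y
  refine ⟨ε, hε, fun ρ ν hν => ?_⟩
  obtain ⟨h1, h2⟩ := hs ρ
  rw [← h1]
  exact h (s ρ) ν (h2 ν hν)

theorem stable_right (hT : Facts T) (X Y : T.Pol) (h : UniformlyKStable T (T.prod X Y)) :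
    UniformlyKStable T Y :=
  stable_left hT Y X (stable_swap hT X Y h)

theorem q1_prod (hT : Facts T) (X Y : T.Pol) (hX : Q1 T X) (hY : Q1 T Y) :
    Q1 T (T.prod X Y) := fun ha hs =>
  hT.csck X Y (hX (hT.aut X Y ha).1 (stable_left hT X Y hs))
    (hY (hT.aut X Y ha).2 (stable_right hT X Y hs))

theorem q1_gen (hT : Facts T) (S : T.Pol → Prop) (hS : ∀ X, S X → Q1 T X) (X : T.Pol)
    (h : Gen T S X) : Q1 T X := by
  induction h with
  | base X h => exact hS X h
  | prod X Y _ _ ih1 ih2 => exact q1_prod hT X Y ih1 ih2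

end Pool.Agent.N522.YU
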